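import Mathlib
import Pool.Agent.Y201.LI.Fam
import Pool.Agent.Y201.LI.GenF

/-! # Points of smooth cubic hypersurfaces over odd extensions of their function fields, and
families of conics and of secant lines of odd covering degree -/

set_option autoImplicit false

namespace Pool.Agent.Results.MP_2619d0_ag.ConicFamilies

open MvPolynomial

/-- `F` is the equation of a smooth cubic hypersurface of dimension `n`: a cubic form in `n + 2`
variables whose partial derivatives have no common zero besides the origin -/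
def SmoothCubic {n : ℕ} (F : MvPolynomial (Fin (n + 2)) ℂ) : Prop :=
  F.IsHomogeneous 3 ∧ ∀ z : Fin (n + 2) → ℂ, (∀ i, eval z (pderiv i F) = 0) → z = 0

/-- the field generated over `ℂ` by the ratios of the coordinates of `x` -/
noncomputable def ratios {n : ℕ} {M : Type} [Field M] [Algebra ℂ M] (x : Fin (n + 2) → M) :
    IntermediateField ℂ M :=
  IntermediateField.adjoin ℂ {z : M | ∃ i j, z = x i / x j}

/-- `x` is a generic point of the hypersurface `F = 0` with coordinates in `M` (so that `ratios x`
is the function field of the hypersurface), and `M` has finite odd degree over the function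
field -/
def OddPoint {n : ℕ} (F : MvPolynomial (Fin (n + 2)) ℂ) {M : Type} [Field M] [Algebra ℂ M]
    (x : Fin (n + 2) → M) : Prop :=
  aeval x F = 0 ∧
  (∀ (e : ℕ) (H : MvPolynomial (Fin (n + 2)) ℂ), H.IsHomogeneous e → aeval x H = 0 → F ∣ H) ∧
  Odd (Module.finrank (ratios x) M)

/-- `lam` is a point of `F = 0` which is on a proper closed subset of `F = 0` -/
def SpecialPoint {n : ℕ} (F : MvPolynomial (Fin (n + 2)) ℂ) {M : Type} [Field M] [Algebra ℂ M]
    (lam : Fin (n + 2) → M) : Prop :=
  lam ≠ 0 ∧ aeval lam F = 0 ∧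
  ∃ (e : ℕ) (H : MvPolynomial (Fin (n + 2)) ℂ), H.IsHomogeneous e ∧ aeval lam H = 0 ∧ ¬ F ∣ H

/-- the number of linearly independent products of two coordinates of `x` (the number of
conditions which the closure `V` of the point `x` of projective space imposes on quadrics), plus
the transcendence degree of the ratios of the coordinates (the dimension of `V`) -/
noncomputable def size {n : ℕ} {M : Type} [Field M] [Algebra ℂ M] (x : Fin (n + 2) → M) :
    Cardinal :=
  Module.finrank ℂ (Submodule.span ℂ {z : M | ∃ i j, z = x i * x j}) +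
    Algebra.trdeg ℂ (ratios x)

/-- the complex vectors `p 0, ..., p (m-1)` are a basis of a linear subspace on which `F`
vanishes -/
def Spans {n m : ℕ} (F : MvPolynomial (Fin (n + 2)) ℂ) (p : Fin m → Fin (n + 2) → ℂ) : Prop :=
  LinearIndependent ℂ p ∧ ∀ c : Fin m → ℂ, eval (∑ a, c a • p a) F = 0

/-- the fibration in residual quadrics of the linear space with basis `p` has a rational section:
there are polynomials `W ≠ 0` and `V a` such that the point `W X + ∑ V a p a` of the span of the
linear space and the generic point `X` of projective space lies on `F = 0` -/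
def HasSection {n m : ℕ} (F : MvPolynomial (Fin (n + 2)) ℂ) (p : Fin m → Fin (n + 2) → ℂ) :
    Prop :=
  ∃ (V : Fin m → MvPolynomial (Fin (n + 2)) ℂ) (W : MvPolynomial (Fin (n + 2)) ℂ), W ≠ 0 ∧
    aeval (fun i => W * X i + ∑ a, V a * C (p a i)) F = 0

/-- `lam` is a point of a small subvariety `V` (the dimension of `V` plus the number of conditions
which `V` imposes on quadrics is at most `n`), or of a linear subspace of the hypersurface whose
fibration in residual quadrics has no rational section -/
def Small {n : ℕ} (F : MvPolynomial (Fin (n + 2)) ℂ) {M : Type} [Field M] [Algebra ℂ M]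
    (lam : Fin (n + 2) → M) : Prop :=
  size lam ≤ n ∨ ∃ (m : ℕ) (p : Fin m → Fin (n + 2) → ℂ) (c : Fin m → M), Spans F p ∧
    ¬ HasSection F p ∧ ∀ i, lam i = ∑ a, c a * algebraMap ℂ M (p a i)

/-- the tangent hyperplane of the hypersurface at a point `lam` of a proper closed subset never
contains the generic point `x` -/
def TangentHyperplanes {n : ℕ} (F : MvPolynomial (Fin (n + 2)) ℂ) : Prop :=
  ∀ (M : Type) [Field M] [Algebra ℂ M] (x lam : Fin (n + 2) → M), OddPoint F x →
    SpecialPoint F lam → ∑ i, x i * aeval lam (pderiv i F) ≠ 0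

/-- the third point of `F = 0` on the line through the points `x` and `lam` of `F = 0` -/
noncomputable def third {n : ℕ} (F : MvPolynomial (Fin (n + 2)) ℂ) {M : Type} [Field M]
    [Algebra ℂ M] (x lam : Fin (n + 2) → M) : Fin (n + 2) → M := fun i =>
  (∑ k, x k * aeval lam (pderiv k F)) * x i - (∑ k, lam k * aeval x (pderiv k F)) * lam i

/-- if `lam` is small then the third point of the line through `x` and `lam` is again a generic
point over which `M` has odd degree -/
def ResidualPoints {n : ℕ} (F : MvPolynomial (Fin (n + 2)) ℂ) : Prop :=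
  ∀ (M : Type) [Field M] [Algebra ℂ M] (x lam : Fin (n + 2) → M), OddPoint F x → lam ≠ 0 →
    aeval lam F = 0 → Small F lam → OddPoint F (third F x lam)

/-- if `x` is on the line through the points `lam` and `mu` of `F = 0`, where `mu` is in a proper
closed subset, then `lam` is not small -/
def Secants {n : ℕ} (F : MvPolynomial (Fin (n + 2)) ℂ) : Prop :=
  ∀ (M : Type) [Field M] [Algebra ℂ M] (x lam mu : Fin (n + 2) → M) (a b : M), OddPoint F x →
    lam ≠ 0 → aeval lam F = 0 → SpecialPoint F mu → (∀ i, x i = a * lam i + b * mu i) →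
    ¬ Small F lam

/-- `(L, t, lam, Q, R)` is a family of conics of odd covering degree on `F = 0` with section `lam`:
`t ∈ M` is transcendental over the subfield `L`, the coordinates of `lam`, `Q`, `R` are in `L`, and
the point `t² lam + t Q + R` of the conic is a generic point of `F = 0` over which `M` has odd
degree; `lam` is the point `t = ∞` of the conic -/
def ConicFamily {n : ℕ} (F : MvPolynomial (Fin (n + 2)) ℂ) {M : Type} [Field M] [Algebra ℂ M]
    (L : IntermediateField ℂ M) (t : M) (lam Q R : Fin (n + 2) → M) : Prop :=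
  Transcendental L t ∧ (∀ i, lam i ∈ L) ∧ (∀ i, Q i ∈ L) ∧ (∀ i, R i ∈ L) ∧
    OddPoint F (fun i => t ^ 2 * lam i + t * Q i + R i)

/-- the section `lam` of a family of conics of odd covering degree is not small -/
def ConicSections {n : ℕ} (F : MvPolynomial (Fin (n + 2)) ℂ) : Prop :=
  ∀ (M : Type) [Field M] [Algebra ℂ M] (L : IntermediateField ℂ M) (t : M)
      (lam Q R : Fin (n + 2) → M), ConicFamily F L t lam Q R → ¬ Small F lam

/-- a dominant rational map of odd degree from affine `n`-space given by polynomials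
`X_j² A i + X_j B i + D i` where `A`, `B`, `D` do not involve `X_j`: the vector `A` is not small,
and the polar quadric of the image point does not contain `A` -/
def QuadraticParameter {n : ℕ} (F : MvPolynomial (Fin (n + 2)) ℂ) : Prop :=
  ∀ (A B D : Fin (n + 2) → MvPolynomial (Fin n) ℂ) (j : Fin n),
    (∀ i, (A i).degreeOf j = 0) → (∀ i, (B i).degreeOf j = 0) → (∀ i, (D i).degreeOf j = 0) →
    OddPoint F (fun i => algebraMap (MvPolynomial (Fin n) ℂ)
      (FractionRing (MvPolynomial (Fin n) ℂ)) (X j ^ 2 * A i + X j * B i + D i)) →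
    ¬ Small F (fun i => algebraMap (MvPolynomial (Fin n) ℂ)
      (FractionRing (MvPolynomial (Fin n) ℂ)) (A i)) ∧
    ∑ i, (X j ^ 2 * A i + X j * B i + D i) * aeval A (pderiv i F) ≠ 0

theorem small_special {n : ℕ} {F : MvPolynomial (Fin (n + 2)) ℂ} {M : Type} [Field M]
    [Algebra ℂ M] (hF : SmoothCubic F) {lam : Fin (n + 2) → M} (hl0 : lam ≠ 0)
    (hs : Small F lam) :
    ∃ (e : ℕ) (H : MvPolynomial (Fin (n + 2)) ℂ), H.IsHomogeneous e ∧ aeval lam H = 0 ∧
      ¬ F ∣ H := by
  have hF0 : F ≠ 0 := Pool.Agent.TH314.PD.ne_zero_of_smooth hF.2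
  rcases hs with hs | ⟨m, p, c, ⟨hp, hpF⟩, -, hc⟩
  · exact Pool.Agent.Y201.LI.nongen_of_size hF.1 (by norm_num) hF0 lam hl0 hs
  · exact Pool.Agent.Y201.LI.nongen_lin hF.1 (by norm_num) hF0 p hpF lam c hc

theorem small_obst {n : ℕ} {F : MvPolynomial (Fin (n + 2)) ℂ} {M : Type} [Field M]
    [Algebra ℂ M] (hF : SmoothCubic F) {x lam : Fin (n + 2) → M} (hx : aeval x F = 0)
    (hl0 : lam ≠ 0) (hFl : aeval lam F = 0) (hs : Small F lam)
    (hz : ∀ (e : ℕ) (H : MvPolynomial (Fin (n + 2)) ℂ), H.IsHomogeneous e →
      aeval (fun i => algebraMap M (RatFunc M) (x i) +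
        RatFunc.X * algebraMap M (RatFunc M) (lam i)) H = 0 → H = 0)
    (ho : Odd (Module.finrank (Pool.Agent.TH314.PD.ratioField fun i =>
      algebraMap M (RatFunc M) (x i) + RatFunc.X * algebraMap M (RatFunc M) (lam i))
      (RatFunc M))) : False := by
  rcases hs with hs | ⟨m, p, c, ⟨hp, hpF⟩, hns, hc⟩
  · exact Pool.Agent.Y201.LI.no_small hF.1 hF.2 x lam hx hl0 hFl hz ho hs
  · exact Pool.Agent.Y201.LI.no_lin hF.1 hF.2 x lam hx p hp hpF hns c hc hz ho

theorem result :
    ∀ (n : ℕ) (F : MvPolynomial (Fin (n + 2)) ℂ), SmoothCubic F →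
      TangentHyperplanes F ∧ ResidualPoints F ∧ Secants F ∧ ConicSections F ∧
        QuadraticParameter F := by
  intro n F hsc
  have hF := hsc.1
  have hsm := hsc.2
  have h1 : ConicSections F := by
    rintro M _ _ L t lam Q R ⟨ht, hl, hQ, hR, hx, hgen, hodd⟩ hs
    obtain ⟨hl0, hFl, hz, ho⟩ := Pool.Agent.Y201.LI.conic_core Pool.Agent.Y201.LI.hthree hF hsm L t
      ht lam Q R hl hQ hR hx hgen hodd
    exact small_obst hsc hx hl0 hFl hs hz ho
  have h4 : TangentHyperplanes F := by
    rintro M _ _ x lam ⟨hx, hgen, hodd⟩ ⟨hl0, hFl, hnon⟩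
    exact Pool.Agent.Y201.LI.tangent_point hF hsm x lam hx hgen hodd hl0 hFl hnon
  have h5 : ResidualPoints F := by
    rintro M _ _ x lam ⟨hx, hgen, hodd⟩ hl0 hFl hs
    exact Pool.Agent.Y201.LI.third_point hF hsm x lam hx hgen hodd hl0 hFl
      (small_special hsc hl0 hs) fun hz ho => small_obst hsc hx hl0 hFl hs hz ho
  have h6 : Secants F := by
    rintro M _ _ x lam mu a b ⟨hx, hgen, hodd⟩ hl0 hFl ⟨-, hFm, hnon⟩ hab hs
    exact Pool.Agent.Y201.LI.secant hF hsm x lam mu hx hgen hodd hl0 hFl hFm hnon
      (small_special hsc hl0 hs) (fun hz ho => small_obst hsc hx hl0 hFl hs hz ho) a b hab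
  refine ⟨h4, h5, h6, h1, ?_⟩
  rintro A B D j hA hB hD hodd
  let K := FractionRing (MvPolynomial (Fin n) ℂ)
  let al : MvPolynomial (Fin n) ℂ →ₐ[ℂ] K := IsScalarTower.toAlgHom ℂ _ K
  have hal : Function.Injective al := IsFractionRing.injective (MvPolynomial (Fin n) ℂ) K
  let s : Fin n → K := fun l => al (X l)
  have hs : AlgebraicIndependent ℂ s := (MvPolynomial.algebraicIndependent_X (Fin n) ℂ).map' hal
  have hsG : ∀ P : MvPolynomial (Fin n) ℂ, aeval s P = al P := by
    intro P
    have : (aeval s : MvPolynomial (Fin n) ℂ →ₐ[ℂ] K) = al := by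
      apply algHom_ext
      intro i
      rw [aeval_X]
    rw [this]
  have hfam : ConicFamily F (IntermediateField.adjoin ℂ (s '' {j}ᶜ)) (s j)
      (fun i => al (A i)) (fun i => al (B i)) (fun i => al (D i)) := by
    refine ⟨(Pool.Agent.Y201.LI.linear_poly s hs j).1, fun i => ?_, fun i => ?_, fun i => ?_, ?_⟩
    · change al (A i) ∈ _
      rw [← hsG]
      exact Pool.Agent.Y201.LI.mem_of_degreeOf s j _ (hA i)
    · change al (B i) ∈ _
      rw [← hsG]
      exact Pool.Agent.Y201.LI.mem_of_degreeOf s j _ (hB i)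
    · change al (D i) ∈ _
      rw [← hsG]
      exact Pool.Agent.Y201.LI.mem_of_degreeOf s j _ (hD i)
    · have h4 : (fun i => s j ^ 2 * al (A i) + s j * al (B i) + al (D i)) = fun i =>
          al (X j ^ 2 * A i + X j * B i + D i) := by
        funext i
        rw [map_add, map_add, map_mul, map_mul, map_pow]
      rw [h4]
      exact hodd
  constructor
  · exact h1 K _ (s j) _ _ _ hfam
  · intro h0
    obtain ⟨ht, hl, hQ, hR, hx, hgen, hodd'⟩ := hfam
    apply Pool.Agent.Y201.LI.conic_residual Pool.Agent.Y201.LI.hthree hF hsm _ (s j) ht _ _ _ hl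
      hQ hR hx hgen hodd'
    have h5 := congrArg al h0
    rw [map_zero, map_sum] at h5
    rw [← h5]
    refine Finset.sum_congr rfl fun i _ => ?_
    have h6 : aeval (fun i => al (A i)) (pderiv i F) = al (aeval A (pderiv i F)) := by
      have : (aeval (fun i => al (A i)) : MvPolynomial (Fin (n + 2)) ℂ →ₐ[ℂ] K) =
          al.comp (aeval A) := by
        apply algHom_ext
        intro i
        rw [aeval_X, AlgHom.comp_apply, aeval_X]
      rw [this, AlgHom.comp_apply]
    rw [h6, map_mul, map_add, map_add, map_mul, map_mul, map_pow]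

end Pool.Agent.Results.MP_2619d0_ag.ConicFamilies
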