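import Pool.Agent.Y196.Sp.Newt

/-! Rational parametrizations of smooth cubic hypersurfaces of dimension `n ≥ 5` by polynomials with
prescribed exponents: the degree is bounded by the volume of the Newton polytope. -/

set_option autoImplicit false

namespace Pool.Agent.Results.MP_2619d0_ag.NewtonPolytope

open MvPolynomial

/-- The tuple `G` of polynomials in `N` variables gives a dominant rational map from affine
`N`-space to the hypersurface `F = 0`: `F` vanishes at `G`, and every form vanishing at `G` is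
divisible by `F`. -/
def Dominant {m N : ℕ} (F : MvPolynomial (Fin m) ℂ) (G : Fin m → MvPolynomial (Fin N) ℂ) : Prop :=
  aeval G F = 0 ∧ ∀ (e : ℕ) (H : MvPolynomial (Fin m) ℂ), H.IsHomogeneous e →
    aeval G H = 0 → F ∣ H

/-- the degree of the map given by `G`: the degree of the field of rational functions
`ℂ(t_1, …, t_n)` over its subfield generated over `ℂ` by all ratios `G i / G j`; if `G` is dominant,
then this subfield is the function field of the hypersurface -/
noncomputable def mapDegree {m n : ℕ} (G : Fin m → MvPolynomial (Fin n) ℂ) : ℕ :=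
  Module.finrank (IntermediateField.adjoin ℂ {z : FractionRing (MvPolynomial (Fin n) ℂ) |
    ∃ i j, z = algebraMap (MvPolynomial (Fin n) ℂ) (FractionRing (MvPolynomial (Fin n) ℂ)) (G i) /
      algebraMap (MvPolynomial (Fin n) ℂ) (FractionRing (MvPolynomial (Fin n) ℂ)) (G j)})
    (FractionRing (MvPolynomial (Fin n) ℂ))

/-- the hypersurface `F = 0` of dimension `n` is rational: it has a birational parametrization -/
def IsRational {n : ℕ} (F : MvPolynomial (Fin (n + 2)) ℂ) : Prop :=
  ∃ G : Fin (n + 2) → MvPolynomial (Fin n) ℂ, Dominant F G ∧ mapDegree G = 1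

/-- the exponents of all monomials of the polynomials `G i` are in the set `A` -/
def ExponentsIn {m N : ℕ} (A : Finset (Fin N →₀ ℕ)) (G : Fin m → MvPolynomial (Fin N) ℂ) : Prop :=
  ∀ i, (G i).support ⊆ A

/-- the `n`-dimensional volume of the projection of the convex hull of `A` to the coordinates
`g 0, …, g (n - 1)` -/
noncomputable def vol {n N : ℕ} (A : Finset (Fin N →₀ ℕ)) (g : Fin n → Fin N) : ℝ :=
  (MeasureTheory.volume (convexHull ℝ
    ((fun (a : Fin N →₀ ℕ) (s : Fin n) => (a (g s) : ℝ)) '' (A : Set (Fin N →₀ ℕ))))).toReal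

/-- the map given by `G` with only `n` free parameters: the parameter `t_(g s)` is the new
variable number `s`, and every other parameter `t_l` gets the constant value `c l` -/
noncomputable def specialize {m n N : ℕ} (G : Fin m → MvPolynomial (Fin N) ℂ) (g : Fin n → Fin N)
    (c : Fin N → ℂ) : Fin m → MvPolynomial (Fin n) ℂ :=
  fun i => aeval (fun l : Fin N =>
    (C (c l) + ∑ s, if g s = l then X s else 0 : MvPolynomial (Fin n) ℂ)) (G i)

/-- Let `X` be a smooth cubic hypersurface of dimension `n ≥ 5`.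
(1) If polynomials in `n` variables with exponents in the finite set `A` give a dominant rational
map to `X`, then its degree `δ` satisfies `1 ≤ δ` and `3 * 2 ^ n * δ ≤ (n + 1)! * Vol(conv A)`.
(2) If polynomials in `N` variables with exponents in `A` give a dominant rational map to `X`, then
there are `n` parameters and constants for the other parameters such that the specialised map is
dominant, and its degree `δ` satisfies `1 ≤ δ` and `3 * 2 ^ n * δ ≤ (n + 1)! * V`, where `V` is the
volume of the projection of `conv A` to these `n` coordinates; if `(n + 1)! * V < 6 * 2 ^ n` for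
every choice of `n` coordinates, then `X` is rational, and `(n + 1)! * V < 3 * 2 ^ n` for every
choice is impossible.
(3) If polynomials which have degree at most `k l` in the parameter `t_l` for every `l` give a
dominant rational map to `X`, then there are `n` parameters `t_(g s)` and constants for the other
parameters such that the specialised map is dominant of degree `δ` with
`3 * 2 ^ n * δ ≤ (n + 1)! * ∏ k (g s)`. -/
theorem result (n : ℕ) (_hn : 5 ≤ n) (F : MvPolynomial (Fin (n + 2)) ℂ) (hF : F.IsHomogeneous 3)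
    (hsmooth : ∀ z : Fin (n + 2) → ℂ, (∀ i, eval z (pderiv i F) = 0) → z = 0) :
    (∀ (A : Finset (Fin n →₀ ℕ)) (G : Fin (n + 2) → MvPolynomial (Fin n) ℂ), ExponentsIn A G →
      Dominant F G → 1 ≤ mapDegree G ∧
        3 * 2 ^ n * (mapDegree G : ℝ) ≤ (n + 1).factorial * vol A id) ∧
    (∀ (N : ℕ) (A : Finset (Fin N →₀ ℕ)) (G : Fin (n + 2) → MvPolynomial (Fin N) ℂ),
      ExponentsIn A G → Dominant F G →
      (∃ (g : Fin n → Fin N) (c : Fin N → ℂ), Function.Injective g ∧ (∀ s, c (g s) = 0) ∧
        Dominant F (specialize G g c) ∧ 1 ≤ mapDegree (specialize G g c) ∧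
        3 * 2 ^ n * (mapDegree (specialize G g c) : ℝ) ≤ (n + 1).factorial * vol A g) ∧
      ((∀ g : Fin n → Fin N, Function.Injective g →
        (n + 1).factorial * vol A g < 6 * 2 ^ n) → IsRational F) ∧
      (∃ g : Fin n → Fin N, Function.Injective g ∧ 3 * 2 ^ n ≤ (n + 1).factorial * vol A g)) ∧
    (∀ (N : ℕ) (k : Fin N → ℕ) (G : Fin (n + 2) → MvPolynomial (Fin N) ℂ),
      (∀ i, ∀ a ∈ (G i).support, ∀ l, a l ≤ k l) → Dominant F G →
      ∃ (g : Fin n → Fin N) (c : Fin N → ℂ), Function.Injective g ∧ (∀ s, c (g s) = 0) ∧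
        Dominant F (specialize G g c) ∧ 1 ≤ mapDegree (specialize G g c) ∧
        3 * 2 ^ n * mapDegree (specialize G g c) ≤ (n + 1).factorial * ∏ s, k (g s)) := by
  -- any number of parameters
  have main : ∀ (N : ℕ) (G : Fin (n + 2) → MvPolynomial (Fin N) ℂ), Dominant F G →
      ∃ (g : Fin n → Fin N) (c : Fin N → ℂ), Function.Injective g ∧ (∀ s, c (g s) = 0) ∧
        Dominant F (specialize G g c) ∧ 1 ≤ mapDegree (specialize G g c) ∧
        ∀ P : Set (Fin n → ℝ), Convex ℝ P → IsCompact P →
          (∀ i, ∀ a ∈ (G i).support, (fun s => (a (g s) : ℝ)) ∈ P) →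
          3 * 2 ^ n * (mapDegree (specialize G g c) : ℝ) ≤
            (n + 1).factorial * (MeasureTheory.volume P).toReal := by
    intro N G hdom
    obtain ⟨c, g, hg, hc, h1, h2, h3, h4⟩ := Pool.Agent.Y196.Sp.newt_param (n := n) (d := 3)
      (by norm_num) F hF hsmooth G hdom.1 hdom.2
    have h5 : 0 < Module.finrank (Pool.Agent.TH314.PD.ratioField fun i =>
        algebraMap (MvPolynomial (Fin n) ℂ) (FractionRing (MvPolynomial (Fin n) ℂ))
          (aeval (Pool.Agent.Y196.Sp.spc c g) (G i))) (FractionRing (MvPolynomial (Fin n) ℂ)) :=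
      Module.finrank_pos
    refine ⟨g, c, hg, hc, ⟨h1, h2⟩, h5, fun P hPc hP hex => ?_⟩
    have h6 : (mapDegree (specialize G g c) : ℝ) * (3 * (3 - 1) ^ n : ℕ) ≤
        (n + 1).factorial * (MeasureTheory.volume P).toReal := h4 hPc hP hex
    push_cast at h6
    norm_num at h6
    linarith
  have conv_cpt : ∀ (N : ℕ) (A : Finset (Fin N →₀ ℕ)) (g : Fin n → Fin N),
      IsCompact (convexHull ℝ
          ((fun (a : Fin N →₀ ℕ) (s : Fin n) => (a (g s) : ℝ)) '' (A : Set (Fin N →₀ ℕ)))) :=
    fun N A g => Pool.Agent.Y196.Sp.npoly_compact A g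
  refine ⟨?_, ?_, ?_⟩
  · intro A G hA hdom
    obtain ⟨h1, h2⟩ := Pool.Agent.Y196.Sp.newt_bound (n := n) (d := 3) (by norm_num) F hF hsmooth
      (A : Set (Fin n →₀ ℕ)) (P := convexHull ℝ
          ((fun (a : Fin n →₀ ℕ) (s : Fin n) => (a (id s) : ℝ)) '' (A : Set (Fin n →₀ ℕ))))
      (convex_convexHull ℝ _) (conv_cpt n A id)
      (fun a ha => subset_convexHull ℝ _ ⟨a, ha, rfl⟩) G (fun i a ha => hA i ha) hdom.1 hdom.2
    have h5 : 0 < Module.finrank (Pool.Agent.TH314.PD.ratioField fun i =>
        algebraMap (MvPolynomial (Fin n) ℂ) (FractionRing (MvPolynomial (Fin n) ℂ)) (G i))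
        (FractionRing (MvPolynomial (Fin n) ℂ)) := Module.finrank_pos
    refine ⟨h5, ?_⟩
    have h6 : (mapDegree G : ℝ) * (3 * (3 - 1) ^ n : ℕ) ≤ (n + 1).factorial * vol A id := h2
    push_cast at h6
    norm_num at h6
    linarith
  · intro N A G hA hdom
    obtain ⟨g, c, hg, hc, h1, h2, h3⟩ := main N G hdom
    have h4 : 3 * 2 ^ n * (mapDegree (specialize G g c) : ℝ) ≤ (n + 1).factorial * vol A g :=
      h3 _ (convex_convexHull ℝ _) (conv_cpt N A g)
        fun i a ha => subset_convexHull ℝ _ ⟨a, Finset.mem_coe.2 (hA i ha), rfl⟩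
    have hpos : (0 : ℝ) < 3 * 2 ^ n := by positivity
    refine ⟨⟨g, c, hg, hc, h1, h2, h4⟩, fun hvol => ?_, g, hg, ?_⟩
    · have h5 := hvol g hg
      have h6 : (mapDegree (specialize G g c) : ℝ) < 2 := by
        by_contra hcon
        push Not at hcon
        have h7 := mul_le_mul_of_nonneg_left hcon hpos.le
        linarith
      have h7 : mapDegree (specialize G g c) < 2 := by exact_mod_cast h6
      exact ⟨specialize G g c, h1, by omega⟩
    · have h6 : (1 : ℝ) ≤ mapDegree (specialize G g c) := by exact_mod_cast h2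
      have h7 := mul_le_mul_of_nonneg_left h6 hpos.le
      linarith
  · intro N k G hk hdom
    obtain ⟨g, c, hg, hc, h1, h2, h3⟩ := main N G hdom
    have h4 := h3 (Set.Icc (0 : Fin n → ℝ) fun s => (k (g s) : ℝ)) (convex_Icc _ _) isCompact_Icc
      (fun i a ha => ⟨fun s => Nat.cast_nonneg _, fun s => Nat.cast_le.2 (hk i a ha (g s))⟩)
    rw [Pool.Agent.Y196.Sp.vol_box fun s => k (g s)] at h4
    have h5 : 3 * 2 ^ n * mapDegree (specialize G g c) ≤ (n + 1).factorial * ∏ s, k (g s) := by
      exact_mod_cast h4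
    exact ⟨g, c, hg, hc, h1, h2, h5⟩

end Pool.Agent.Results.MP_2619d0_ag.NewtonPolytope
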