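import Mathlib
import Pool.Agent.Y201.LI.Thm3

/-! # Every smooth cubic hypersurface: the polar quadric of the generic point has Witt index one -/

set_option autoImplicit false

namespace Pool.Agent.Results.MP_2619d0_ag.WittIndexOne

open MvPolynomial

/-- `F` is the equation of a smooth cubic hypersurface of dimension `n`: a cubic form in `n + 2`
variables whose partial derivatives have no common zero besides the origin -/
def SmoothCubic {n : ℕ} (F : MvPolynomial (Fin (n + 2)) ℂ) : Prop :=
  F.IsHomogeneous 3 ∧ ∀ z : Fin (n + 2) → ℂ, (∀ i, eval z (pderiv i F) = 0) → z = 0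

/-- the field generated over `ℂ` by the ratios of the coordinates of `x` -/
noncomputable def ratios {n : ℕ} {M : Type} [Field M] [Algebra ℂ M] (x : Fin (n + 2) → M) :
    IntermediateField ℂ M :=
  IntermediateField.adjoin ℂ {z : M | ∃ i j, z = x i / x j}

/-- `x` is a generic point of the hypersurface `F = 0` with coordinates in `M` (so that `ratios x`
is the function field of the hypersurface), and `M` has finite odd degree over the function
field -/
def OddPoint {n : ℕ} (F : MvPolynomial (Fin (n + 2)) ℂ) {M : Type} [Field M] [Algebra ℂ M]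
    (x : Fin (n + 2) → M) : Prop :=
  aeval x F = 0 ∧
  (∀ (e : ℕ) (H : MvPolynomial (Fin (n + 2)) ℂ), H.IsHomogeneous e → aeval x H = 0 → F ∣ H) ∧
  Odd (Module.finrank (ratios x) M)

/-- the polar quadric of `x`: the quadratic form `∑ x_i (∂F/∂X_i)(y)` in `y`, which vanishes at
`y = x` if `F(x) = 0` -/
noncomputable def polar {n : ℕ} (F : MvPolynomial (Fin (n + 2)) ℂ) {R : Type} [CommRing R]
    [Algebra ℂ R] (x y : Fin (n + 2) → R) : R :=
  ∑ i, x i * aeval y (pderiv i F)

/-- over every field of odd degree over the function field the polar quadric of the generic point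
contains no line, that is, it has no totally isotropic subspace of dimension two -/
def WittIndexOne {n : ℕ} (F : MvPolynomial (Fin (n + 2)) ℂ) : Prop :=
  ∀ (M : Type) [Field M] [Algebra ℂ M] (x : Fin (n + 2) → M), OddPoint F x →
    ∀ u w : Fin (n + 2) → M, LinearIndependent M ![u, w] →
      ∃ a b : M, polar F x (a • u + b • w) ≠ 0

/-- over every field of odd degree over the function field the polar quadric of the generic point
contains no parametrized rational curve of odd degree `c`: no tuple `y` of polynomials in one
variable over `M` of degrees at most `c`, not all of smaller degree, without common factor, such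
that all points `y(s)` lie on the quadric -/
def NoOddCurve {n : ℕ} (F : MvPolynomial (Fin (n + 2)) ℂ) : Prop :=
  ∀ (M : Type) [Field M] [Algebra ℂ M] (x : Fin (n + 2) → M), OddPoint F x →
    ∀ (c : ℕ) (y : Fin (n + 2) → Polynomial M), Odd c → (∀ j, (y j).natDegree ≤ c) →
      (∃ j, (y j).coeff c ≠ 0) → (∀ g : Polynomial M, Irreducible g → ∃ j, ¬ g ∣ y j) →
      polar F (fun i => Polynomial.C (x i)) y ≠ 0

/-- over every field of odd degree over the function field no line meets the hypersurface at the
generic point with multiplicity three or more: `F(x + s u)` is not of the form `c s³` -/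
def NoTripleContact {n : ℕ} (F : MvPolynomial (Fin (n + 2)) ℂ) : Prop :=
  ∀ (M : Type) [Field M] [Algebra ℂ M] (x : Fin (n + 2) → M), OddPoint F x →
    ∀ u : Fin (n + 2) → M, LinearIndependent M ![x, u] → ∀ c : M,
      aeval (fun j => Polynomial.C (x j) + Polynomial.X * Polynomial.C (u j)) F ≠
        Polynomial.C c * Polynomial.X ^ 3

/-- the coordinates of a generic point over a field of odd degree over the function field are not
linear in a parameter `t` -/
def NoLinearParameter {n : ℕ} (F : MvPolynomial (Fin (n + 2)) ℂ) : Prop :=
  ∀ (M : Type) [Field M] [Algebra ℂ M] (L : IntermediateField ℂ M) (t : M), Transcendental L t →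
    ∀ u w : Fin (n + 2) → L, ¬ OddPoint F (fun i => t * (u i : M) + (w i : M))

/-- a dominant rational map of odd degree from affine `n`-space given by polynomials `G i` has
degree at least two in each of the parameters -/
def NoLinearMap {n : ℕ} (F : MvPolynomial (Fin (n + 2)) ℂ) : Prop :=
  ∀ (G : Fin (n + 2) → MvPolynomial (Fin n) ℂ) (j : Fin n),
    OddPoint F (fun i => algebraMap (MvPolynomial (Fin n) ℂ)
      (FractionRing (MvPolynomial (Fin n) ℂ)) (G i)) → ∃ i, 2 ≤ (G i).degreeOf j

/-- Let `X` be ANY smooth cubic hypersurface of any dimension. Over every extension of odd degree of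
the function field of `X` the polar quadric of the generic point has Witt index one and contains no
rational curve of odd degree, no line meets `X` at the generic point with multiplicity three or
more, and the coordinates of the generic point are not linear in a parameter; a dominant rational
map of odd degree from affine space to `X` has degree at least two in each parameter. -/
theorem result :
    ∀ (n : ℕ) (F : MvPolynomial (Fin (n + 2)) ℂ), SmoothCubic F →
      WittIndexOne F ∧ NoOddCurve F ∧ NoTripleContact F ∧ NoLinearParameter F ∧
        NoLinearMap F := by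
  rintro n F ⟨hF, hsm⟩
  have hodd : ∀ k : ℕ, Odd k → ¬ 3 - 1 ∣ k := by
    intro k hk h
    rcases hk with ⟨a, ha⟩
    omega
  refine ⟨?_, ?_, ?_, ?_, ?_⟩
  · rintro M _ _ x ⟨hx, hgen, hx1⟩ u w huw
    by_contra hcon
    push Not at hcon
    refine hodd _ hx1 (Pool.Agent.Y201.LI.line_polar hF (by norm_num) hsm x hx hgen u w huw ?_)
    have : Infinite M := Infinite.of_injective _ (algebraMap ℂ M).injective
    apply Polynomial.funext
    intro s
    rw [Polynomial.eval_zero, Polynomial.eval_finsetSum]
    rw [← hcon s 1]
    unfold polar
    refine Finset.sum_congr rfl fun i _ => ?_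
    rw [Polynomial.eval_mul, Polynomial.eval_C]
    congr 1
    have h1 := MvPolynomial.comp_aeval_apply (R := ℂ) (fun j => Polynomial.C (w j) +
      Polynomial.X * Polynomial.C (u j))
      ((Polynomial.aeval s : Polynomial M →ₐ[M] M).restrictScalars ℂ) (pderiv i F)
    have h2 : Polynomial.eval s (aeval (fun j => Polynomial.C (w j) +
        Polynomial.X * Polynomial.C (u j)) (pderiv i F)) =
        ((Polynomial.aeval s : Polynomial M →ₐ[M] M).restrictScalars ℂ)
          (aeval (fun j => Polynomial.C (w j) +
        Polynomial.X * Polynomial.C (u j)) (pderiv i F)) := by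
      rw [AlgHom.restrictScalars_apply, Polynomial.coe_aeval_eq_eval]
    have h3 : (fun j => ((Polynomial.aeval s : Polynomial M →ₐ[M] M).restrictScalars ℂ)
        (Polynomial.C (w j) + Polynomial.X * Polynomial.C (u j))) = s • u + (1 : M) • w := by
      funext j
      rw [AlgHom.restrictScalars_apply, Polynomial.coe_aeval_eq_eval, Pi.add_apply,
        Pi.smul_apply, Pi.smul_apply, smul_eq_mul, smul_eq_mul, one_mul]
      simp only [Polynomial.eval_add, Polynomial.eval_mul, Polynomial.eval_C, Polynomial.eval_X]
      ring
    rw [h2, h1, h3]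
  · rintro M _ _ x ⟨hx, hgen, hx1⟩ c y hc hyc hyt hprim hpol
    refine hodd _ (hc.mul hx1)
      (Pool.Agent.Y201.LI.curve_polar hF (by norm_num) hsm x hx hgen c y hyc hyt hprim hpol)
  · rintro M _ _ x ⟨hx, hgen, hx1⟩ u hu c h
    exact hodd _ hx1 (Pool.Agent.Y201.LI.contact hF (by norm_num) hsm x hx hgen u hu c h)
  · rintro M _ _ L t ht u w ⟨hx, hgen, hx1⟩
    exact hodd _ hx1 (Pool.Agent.Y201.LI.linear_param hF (by norm_num) hsm L t ht
      (fun i => (u i : M)) (fun i => (w i : M)) (fun i => (u i).2) (fun i => (w i).2) hx hgen)
  · rintro G j ⟨hx, hgen, hx1⟩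
    by_contra hcon
    push Not at hcon
    let al : MvPolynomial (Fin n) ℂ →ₐ[ℂ] FractionRing (MvPolynomial (Fin n) ℂ) :=
      IsScalarTower.toAlgHom ℂ _ _
    have hal : Function.Injective al :=
      IsFractionRing.injective (MvPolynomial (Fin n) ℂ) (FractionRing (MvPolynomial (Fin n) ℂ))
    have hay : ∀ H : MvPolynomial (Fin (n + 2)) ℂ, aeval (fun i => al (G i)) H =
        al (aeval G H) := by
      intro H
      have : (aeval (fun i => al (G i)) : MvPolynomial (Fin (n + 2)) ℂ →ₐ[ℂ] _) =
          al.comp (aeval G) := by
        apply algHom_ext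
        intro i
        rw [aeval_X, AlgHom.comp_apply, aeval_X]
      rw [this, AlgHom.comp_apply]
    refine hodd _ hx1 (Pool.Agent.Y201.LI.linear_map hF (by norm_num) hsm G ?_ ?_ j
      (fun i => Nat.le_of_lt_succ (hcon i)))
    · apply hal
      rw [map_zero, ← hay]
      exact hx
    · intro e H hH h
      refine hgen e H hH ?_
      change aeval (fun i => al (G i)) H = 0
      rw [hay, h, map_zero]

end Pool.Agent.Results.MP_2619d0_ag.WittIndexOne
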